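import Mathlib
import Pool.Agent.Helper289.UO.Top

set_option autoImplicit false
set_option linter.all false

/-!
Category quantifiers and the embedding of Borel actions into a compact flow.
-/

namespace Pool.Agent.V1170.UT

open Metric Filter Topology Pool.Agent.Helper289.UO

section top

variable {U : Type} [TopologicalSpace U]

/-- the largest open set in which `D` is comeagre -/
def Op (D : Set U) : Set U := {s | ∃ O : Set U, IsOpen O ∧ s ∈ O ∧ IsMeagre (O \ D)}

theorem op_open (D : Set U) : IsOpen (Op D) := by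
  rw [isOpen_iff_forall_mem_open]
  rintro s ⟨O, hO, hs, hm⟩
  exact ⟨O, fun t ht => ⟨O, hO, ht, hm⟩, hO, hs⟩

theorem op_iff (V : ℕ → Set U) (hV : ∀ n, IsOpen (V n))
    (hb : ∀ y (W : Set U), IsOpen W → y ∈ W → ∃ n, y ∈ V n ∧ V n ⊆ W) (D : Set U) (s : U) :
    s ∈ Op D ↔ ∃ n, s ∈ V n ∧ IsMeagre (V n \ D) := by
  constructor
  · rintro ⟨O, hO, hs, hm⟩
    obtain ⟨n, h1, h2⟩ := hb s O hO hs
    exact ⟨n, h1, hm.mono (Set.diff_subset_diff_left h2)⟩
  · rintro ⟨n, h1, h2⟩
    exact ⟨V n, hV n, h1, h2⟩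

theorem op_diff (V : ℕ → Set U) (hV : ∀ n, IsOpen (V n))
    (hb : ∀ y (W : Set U), IsOpen W → y ∈ W → ∃ n, y ∈ V n ∧ V n ⊆ W) (D : Set U) :
    IsMeagre (Op D \ D) := by
  classical
  have h1 : IsMeagre (⋃ n, if IsMeagre (V n \ D) then V n \ D else ∅) := by
    apply isMeagre_iUnion
    intro n
    split_ifs with h
    · exact h
    · exact IsMeagre.empty
  refine h1.mono ?_
  rintro s ⟨hs, hsD⟩
  obtain ⟨n, h2, h3⟩ := (op_iff V hV hb D s).1 hs
  refine Set.mem_iUnion.2 ⟨n, ?_⟩
  rw [if_pos h3]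
  exact ⟨h2, hsD⟩

theorem diff_op [MeasurableSpace U] [BorelSpace U] (D : Set U) (hD : MeasurableSet D) :
    IsMeagre (D \ Op D) := by
  obtain ⟨u, hu, he⟩ := hD.residualEq_isOpen
  have h1 : IsMeagre {x | ¬ (D x = u x)} := by
    show {x | ¬ (D x = u x)}ᶜ ∈ residual U
    have : {x | ¬ (D x = u x)}ᶜ = {x | D x = u x} := by
      ext x; simp
    rw [this]
    exact he
  have h2 : u ⊆ Op D := by
    intro x hx
    refine ⟨u, hu, hx, h1.mono ?_⟩
    rintro y ⟨hy, hyD⟩
    intro h
    exact hyD (by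
      have : u y := hy
      rw [← h] at this
      exact this)
  refine h1.mono ?_
  rintro y ⟨hy, hyo⟩
  intro h
  apply hyo
  apply h2
  have : D y := hy
  rw [h] at this
  exact this

theorem meagre_diff_of_closure [MeasurableSpace U] [BorelSpace U] (V : ℕ → Set U)
    (hV : ∀ n, IsOpen (V n))
    (hb : ∀ y (W : Set U), IsOpen W → y ∈ W → ∃ n, y ∈ V n ∧ V n ⊆ W)
    (D E : Set U) (hD : MeasurableSet D) (h : closure (Op D) = closure (Op E)) :
    IsMeagre (D \ E) := by
  have h3 : IsMeagre (closure (Op E) \ Op E) := by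
    have h4 : IsNowhereDense (closure (Op E) \ Op E) := by
      rw [← (op_open E).frontier_eq]
      show interior (closure (frontier (Op E))) = ∅
      rw [isClosed_frontier.closure_eq, ← frontier_compl]
      exact interior_frontier (op_open E).isClosed_compl
    exact h4.isMeagre
  refine (((diff_op D hD).union h3).union (op_diff V hV hb E)).mono ?_
  rintro x ⟨hx, hxE⟩
  by_cases h1 : x ∈ Op D
  · have h2 : x ∈ closure (Op E) := h ▸ subset_closure h1
    by_cases h5 : x ∈ Op E
    · exact Or.inr ⟨h5, hxE⟩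
    · exact Or.inl (Or.inr ⟨h2, h5⟩)
  · exact Or.inl (Or.inl ⟨hx, h1⟩)

theorem meagre_iff_basic [BaireSpace U] [MeasurableSpace U] [BorelSpace U] (V : ℕ → Set U)
    (hV : ∀ n, IsOpen (V n))
    (hb : ∀ y (W : Set U), IsOpen W → y ∈ W → ∃ n, y ∈ V n ∧ V n ⊆ W)
    (D O : Set U) (hD : MeasurableSet D) (hO : IsOpen O) :
    IsMeagre (O ∩ Dᶜ) ↔ ∀ n, (V n).Nonempty → V n ⊆ O → ¬ IsMeagre (V n ∩ D) := by
  constructor
  · intro h n hn hnO hm
    have h1 : IsMeagre (V n) := by
      refine (h.union hm).mono ?_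
      intro x hx
      by_cases hxD : x ∈ D
      · exact Or.inr ⟨hx, hxD⟩
      · exact Or.inl ⟨hnO hx, hxD⟩
    have h2 : Dense (V n)ᶜ := dense_of_mem_residual h1
    obtain ⟨x, hx1, hx2⟩ := h2.inter_open_nonempty _ (hV n) hn
    exact hx2 hx1
  · intro h
    by_contra hm
    obtain ⟨u, hu, he⟩ := hD.compl.residualEq_isOpen
    have h1 : IsMeagre {x | ¬ (Dᶜ x = u x)} := by
      show {x | ¬ (Dᶜ x = u x)}ᶜ ∈ residual U
      have : {x | ¬ (Dᶜ x = u x)}ᶜ = {x | Dᶜ x = u x} := by
        ext x; simp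
      rw [this]
      exact he
    have h2 : (O ∩ u).Nonempty := by
      by_contra hne
      rw [Set.not_nonempty_iff_eq_empty] at hne
      apply hm
      refine h1.mono ?_
      rintro x ⟨hxO, hxD⟩ hxe
      have : x ∈ O ∩ u := ⟨hxO, by
        have h3 : Dᶜ x := hxD
        rw [hxe] at h3
        exact h3⟩
      rw [hne] at this
      exact this
    obtain ⟨y, hyO, hyu⟩ := h2
    obtain ⟨n, hn1, hn2⟩ := hb y (O ∩ u) (hO.inter hu) ⟨hyO, hyu⟩
    refine h n ⟨y, hn1⟩ (fun z hz => (hn2 hz).1) (h1.mono ?_)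
    rintro x ⟨hxV, hxD⟩ hxe
    have h3 : u x := (hn2 hxV).2
    rw [← hxe] at h3
    exact h3 hxD

/-- Borel sets are closed under category quantifiers. -/
theorem meagre_measurable [BaireSpace U] [MeasurableSpace U] [BorelSpace U] (V : ℕ → Set U)
    (hV : ∀ n, IsOpen (V n))
    (hb : ∀ y (W : Set U), IsOpen W → y ∈ W → ∃ n, y ∈ V n ∧ V n ⊆ W)
    {W : Type} [MeasurableSpace W] (B : Set (W × U)) (hB : MeasurableSet B) :
    ∀ O : Set U, IsOpen O → MeasurableSet {w : W | IsMeagre (O ∩ {g | (w, g) ∈ B})} := by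
  classical
  induction B, hB using MeasurableSpace.induction_on_inter generateFrom_prod.symm isPiSystem_prod with
  | empty =>
    intro O hO
    have : {w : W | IsMeagre (O ∩ {g | (w, g) ∈ (∅ : Set (W × U))})} = Set.univ := by
      rw [Set.eq_univ_iff_forall]
      intro w
      show IsMeagre _
      have : (O ∩ {g | (w, g) ∈ (∅ : Set (W × U))}) = ∅ := by ext x; simp
      rw [this]
      exact IsMeagre.empty
    rw [this]
    exact MeasurableSet.univ
  | basic t ht =>
    obtain ⟨A, hA, D, hD, rfl⟩ := ht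
    intro O hO
    by_cases h : IsMeagre (O ∩ D)
    · have : {w : W | IsMeagre (O ∩ {g | (w, g) ∈ A ×ˢ D})} = Set.univ := by
        rw [Set.eq_univ_iff_forall]
        intro w
        refine h.mono ?_
        rintro x ⟨h1, h2⟩
        exact ⟨h1, h2.2⟩
      rw [this]
      exact MeasurableSet.univ
    · have : {w : W | IsMeagre (O ∩ {g | (w, g) ∈ A ×ˢ D})} = Aᶜ := by
        ext w
        constructor
        · intro hw hwA
          apply h
          have hw' : IsMeagre (O ∩ {g | (w, g) ∈ A ×ˢ D}) := hw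
          refine hw'.mono ?_
          rintro x ⟨h1, h2⟩
          exact ⟨h1, hwA, h2⟩
        · intro hwA
          show IsMeagre _
          have : (O ∩ {g | (w, g) ∈ A ×ˢ D}) = ∅ := by
            ext x
            simp only [Set.mem_inter_iff, Set.mem_setOf_eq, Set.mem_prod, Set.mem_empty_iff_false,
              iff_false]
            rintro ⟨_, h2, _⟩
            exact hwA h2
          rw [this]
          exact IsMeagre.empty
      rw [this]
      exact (show MeasurableSet A from hA).compl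
  | compl t htm ih =>
    intro O hO
    have : {w : W | IsMeagre (O ∩ {g | (w, g) ∈ tᶜ})} =
        ⋂ n : ℕ, {w | (V n).Nonempty → V n ⊆ O → ¬ IsMeagre (V n ∩ {g | (w, g) ∈ t})} := by
      ext w
      have hD : MeasurableSet {g | (w, g) ∈ t} := measurable_prodMk_left htm
      have h := meagre_iff_basic V hV hb {g | (w, g) ∈ t} O hD hO
      simp only [Set.mem_iInter, Set.mem_setOf_eq]
      exact h
    rw [this]
    refine MeasurableSet.iInter fun n => ?_
    by_cases h1 : (V n).Nonempty
    · by_cases h2 : V n ⊆ O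
      · have : {w : W | (V n).Nonempty → V n ⊆ O → ¬ IsMeagre (V n ∩ {g | (w, g) ∈ t})} =
            {w | IsMeagre (V n ∩ {g | (w, g) ∈ t})}ᶜ := by
          ext w
          simp [h1, h2]
        rw [this]
        exact (ih (V n) (hV n)).compl
      · have : {w : W | (V n).Nonempty → V n ⊆ O → ¬ IsMeagre (V n ∩ {g | (w, g) ∈ t})} =
            Set.univ := by
          ext w
          simp [h2]
        rw [this]
        exact MeasurableSet.univ
    · have : {w : W | (V n).Nonempty → V n ⊆ O → ¬ IsMeagre (V n ∩ {g | (w, g) ∈ t})} =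
          Set.univ := by
        ext w
        simp [h1]
      rw [this]
      exact MeasurableSet.univ
  | iUnion f hd hf ih =>
    intro O hO
    have : {w : W | IsMeagre (O ∩ {g | (w, g) ∈ ⋃ i, f i})} =
        ⋂ i, {w | IsMeagre (O ∩ {g | (w, g) ∈ f i})} := by
      ext w
      simp only [Set.mem_iInter, Set.mem_setOf_eq]
      constructor
      · intro h i
        refine h.mono ?_
        rintro x ⟨h1, h2⟩
        exact ⟨h1, Set.mem_iUnion.2 ⟨i, h2⟩⟩
      · intro h
        refine (isMeagre_iUnion h).mono ?_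
        rintro x ⟨h1, h2⟩
        obtain ⟨i, hi⟩ := Set.mem_iUnion.1 h2
        exact Set.mem_iUnion.2 ⟨i, h1, hi⟩
    rw [this]
    exact MeasurableSet.iInter fun i => ih i O hO

end top

end Pool.Agent.V1170.UT
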