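import Mathlib

set_option autoImplicit false
set_option linter.all false

/-!
A Borel selector for the left cosets of a closed subgroup of a Polish group, and the induced action.
-/

namespace Pool.Agent.V1170.UT

open Metric Filter Topology

section sel

variable {X : Type} [MetricSpace X]

/-- indices of centres of balls meeting `S` -/
noncomputable def idx (q : ℕ → X) : ℕ → Set X → ℕ
  | 0, S => sInf {n | (S ∩ (ball (q n) 1)).Nonempty}
  | k + 1, S => sInf {n | (S ∩ (ball (q n) ((1 / 2 : ℝ) ^ (k + 1)) ∩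
      ball (q (idx q k S)) ((1 / 2 : ℝ) ^ k))).Nonempty}

theorem exists_ball (q : ℕ → X) (hq : DenseRange q) (z : X) {r : ℝ} (hr : 0 < r) :
    ∃ n, z ∈ ball (q n) r := by
  obtain ⟨n, hn⟩ := hq.exists_dist_lt z hr
  exact ⟨n, hn⟩

theorem idx_meet (q : ℕ → X) (hq : DenseRange q) (S : Set X) (hS : S.Nonempty) (k : ℕ) :
    (S ∩ ball (q (idx q k S)) ((1 / 2 : ℝ) ^ k)).Nonempty := by
  induction k with
  | zero =>
    obtain ⟨z, hz⟩ := hS
    obtain ⟨n, hn⟩ := exists_ball q hq z one_pos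
    have h : {n | (S ∩ (ball (q n) 1)).Nonempty}.Nonempty := ⟨n, z, hz, hn⟩
    have := Nat.sInf_mem h
    simpa [idx] using this
  | succ k ih =>
    obtain ⟨z, hz, hz'⟩ := ih
    obtain ⟨n, hn⟩ := exists_ball q hq z (r := (1 / 2 : ℝ) ^ (k + 1)) (by positivity)
    have h : {n | (S ∩ (ball (q n) ((1 / 2 : ℝ) ^ (k + 1)) ∩
      ball (q (idx q k S)) ((1 / 2 : ℝ) ^ k))).Nonempty}.Nonempty := ⟨n, z, hz, hn, hz'⟩
    obtain ⟨w, hw1, hw2, hw3⟩ := Nat.sInf_mem h
    exact ⟨w, hw1, hw2⟩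

theorem idx_step (q : ℕ → X) (hq : DenseRange q) (S : Set X) (hS : S.Nonempty) (k : ℕ) :
    dist (q (idx q k S)) (q (idx q (k + 1) S)) ≤ 2 * (1 / 2 : ℝ) ^ k := by
  obtain ⟨z, hz, hz'⟩ := idx_meet q hq S hS k
  obtain ⟨n, hn⟩ := exists_ball q hq z (r := (1 / 2 : ℝ) ^ (k + 1)) (by positivity)
  have h : {n | (S ∩ (ball (q n) ((1 / 2 : ℝ) ^ (k + 1)) ∩
    ball (q (idx q k S)) ((1 / 2 : ℝ) ^ k))).Nonempty}.Nonempty := ⟨n, z, hz, hn, hz'⟩
  obtain ⟨w, hw1, hw2, hw3⟩ := Nat.sInf_mem h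
  have e : idx q (k + 1) S = sInf {n | (S ∩ (ball (q n) ((1 / 2 : ℝ) ^ (k + 1)) ∩
    ball (q (idx q k S)) ((1 / 2 : ℝ) ^ k))).Nonempty} := rfl
  rw [← e] at hw2
  have h1 : dist (q (idx q k S)) w < (1 / 2 : ℝ) ^ k := by
    rw [dist_comm]; exact hw3
  have h2 : dist w (q (idx q (k + 1) S)) < (1 / 2 : ℝ) ^ (k + 1) := hw2
  have h3 : (1 / 2 : ℝ) ^ (k + 1) ≤ (1 / 2 : ℝ) ^ k :=
    pow_le_pow_of_le_one (by norm_num) (by norm_num) (Nat.le_succ k)
  linarith [dist_triangle (q (idx q k S)) w (q (idx q (k + 1) S))]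

theorem idx_cauchy (q : ℕ → X) (hq : DenseRange q) (S : Set X) (hS : S.Nonempty) :
    CauchySeq (fun k => q (idx q k S)) :=
  cauchySeq_of_le_geometric (1 / 2 : ℝ) 2 (by norm_num) (idx_step q hq S hS)

/-- the selector -/
noncomputable def sel [Nonempty X] (q : ℕ → X) (S : Set X) : X :=
  limUnder atTop (fun k => q (idx q k S))

theorem sel_tendsto [CompleteSpace X] [Nonempty X] (q : ℕ → X) (hq : DenseRange q) (S : Set X)
    (hS : S.Nonempty) : Tendsto (fun k => q (idx q k S)) atTop (𝓝 (sel q S)) :=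
  (idx_cauchy q hq S hS).tendsto_limUnder

theorem sel_mem [CompleteSpace X] [Nonempty X] (q : ℕ → X) (hq : DenseRange q) (S : Set X)
    (hS : S.Nonempty) (hc : IsClosed S) : sel q S ∈ S := by
  have h : ∀ k, ∃ z, z ∈ S ∧ dist z (q (idx q k S)) < (1 / 2 : ℝ) ^ k := by
    intro k
    obtain ⟨z, hz, hz'⟩ := idx_meet q hq S hS k
    exact ⟨z, hz, hz'⟩
  choose z hz hz' using h
  have h0 : Tendsto (fun k : ℕ => (1 / 2 : ℝ) ^ k) atTop (𝓝 0) :=
    tendsto_pow_atTop_nhds_zero_of_lt_one (by norm_num) (by norm_num)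
  have h1 : Tendsto (fun k => dist (z k) (q (idx q k S))) atTop (𝓝 0) :=
    squeeze_zero (fun k => dist_nonneg) (fun k => (hz' k).le) h0
  have h2 : Tendsto z atTop (𝓝 (sel q S)) := by
    have h3 := sel_tendsto q hq S hS
    rw [tendsto_iff_dist_tendsto_zero] at h3 ⊢
    refine squeeze_zero (fun k => dist_nonneg)
      (fun k => dist_triangle (z k) (q (idx q k S)) (sel q S)) ?_
    simpa using h1.add h3
  exact hc.mem_of_tendsto h2 (Eventually.of_forall hz)

theorem idx_measurable {Ω : Type} [MeasurableSpace Ω] (q : ℕ → X) (hq : DenseRange q)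
    (C : Ω → Set X) (hC : ∀ ω, (C ω).Nonempty)
    (hm : ∀ O : Set X, IsOpen O → MeasurableSet {ω | (C ω ∩ O).Nonempty}) (k : ℕ) :
    Measurable (fun ω => idx q k (C ω)) := by
  classical
  have key : ∀ P : Ω → ℕ → Prop, (∀ n, MeasurableSet {ω | P ω n}) → (∀ ω, ∃ n, P ω n) →
      Measurable (fun ω => sInf {n | P ω n}) := by
    intro P hP hex
    have : (fun ω => sInf {n | P ω n}) = fun ω => Nat.find (hex ω) := by
      funext ω
      exact Nat.sInf_def (hex ω)
    rw [this]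
    exact measurable_find hex hP
  induction k with
  | zero =>
    refine key (fun ω n => (C ω ∩ (ball (q n) 1)).Nonempty) (fun n => hm _ isOpen_ball) ?_
    intro ω
    obtain ⟨z, hz⟩ := hC ω
    obtain ⟨n, hn⟩ := exists_ball q hq z one_pos
    exact ⟨n, z, hz, hn⟩
  | succ k ih =>
    refine key (fun ω n => (C ω ∩ (ball (q n) ((1 / 2 : ℝ) ^ (k + 1)) ∩
      ball (q (idx q k (C ω))) ((1 / 2 : ℝ) ^ k))).Nonempty) (fun n => ?_) ?_
    · have : {ω | (C ω ∩ (ball (q n) ((1 / 2 : ℝ) ^ (k + 1)) ∩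
          ball (q (idx q k (C ω))) ((1 / 2 : ℝ) ^ k))).Nonempty} =
          ⋃ m : ℕ, ((fun ω => idx q k (C ω)) ⁻¹' {m}) ∩
            {ω | (C ω ∩ (ball (q n) ((1 / 2 : ℝ) ^ (k + 1)) ∩
              ball (q m) ((1 / 2 : ℝ) ^ k))).Nonempty} := by
        ext ω
        simp only [Set.mem_setOf_eq, Set.mem_iUnion, Set.mem_inter_iff, Set.mem_preimage,
          Set.mem_singleton_iff]
        constructor
        · intro h
          exact ⟨_, rfl, h⟩
        · rintro ⟨m, hm, h⟩
          rw [hm]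
          exact h
      rw [this]
      exact MeasurableSet.iUnion fun m => (ih (measurableSet_singleton m)).inter
        (hm _ (isOpen_ball.inter isOpen_ball))
    · intro ω
      obtain ⟨z, hz, hz'⟩ := idx_meet q hq (C ω) (hC ω) k
      obtain ⟨n, hn⟩ := exists_ball q hq z (r := (1 / 2 : ℝ) ^ (k + 1)) (by positivity)
      exact ⟨n, z, hz, hn, hz'⟩

theorem sel_measurable [CompleteSpace X] [Nonempty X] [MeasurableSpace X] [BorelSpace X]
    {Ω : Type} [MeasurableSpace Ω] (q : ℕ → X) (hq : DenseRange q)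
    (C : Ω → Set X) (hC : ∀ ω, (C ω).Nonempty)
    (hm : ∀ O : Set X, IsOpen O → MeasurableSet {ω | (C ω ∩ O).Nonempty}) :
    Measurable (fun ω => sel q (C ω)) := by
  refine measurable_of_tendsto_metrizable (f := fun k ω => q (idx q k (C ω))) ?_ ?_
  · intro k
    exact (measurable_from_nat (f := q)).comp (idx_measurable q hq C hC hm k)
  · rw [tendsto_pi_nhds]
    intro ω
    exact sel_tendsto q hq (C ω) (hC ω)

end sel

/-- Borel selector for the left cosets of a closed subgroup. -/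
theorem coset_selector (U : Type) [TopologicalSpace U] [Group U] [IsTopologicalGroup U]
    [PolishSpace U] [MeasurableSpace U] [BorelSpace U] (G : Subgroup U) (hG : IsClosed (G : Set U)) :
    ∃ σ : U → U, Measurable σ ∧ (∀ u, (σ u)⁻¹ * u ∈ G) ∧ ∀ u v, u⁻¹ * v ∈ G → σ u = σ v := by
  letI := TopologicalSpace.upgradeIsCompletelyMetrizable U
  obtain ⟨q, hq⟩ := TopologicalSpace.exists_dense_seq U
  haveI : Nonempty U := ⟨1⟩
  let C : U → Set U := fun u => {v | u⁻¹ * v ∈ G}
  have hC : ∀ u, (C u).Nonempty := fun u => ⟨u, by simp [C]⟩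
  have hcl : ∀ u, IsClosed (C u) := fun u => hG.preimage (continuous_const.mul continuous_id)
  have hm : ∀ O : Set U, IsOpen O → MeasurableSet {u | (C u ∩ O).Nonempty} := by
    intro O hO
    have : {u | (C u ∩ O).Nonempty} = ⋃ g : G, (fun u : U => u * (g : U)) ⁻¹' O := by
      ext u
      simp only [Set.mem_setOf_eq, Set.mem_iUnion, Set.mem_preimage]
      constructor
      · rintro ⟨v, hv, hvO⟩
        refine ⟨⟨u⁻¹ * v, hv⟩, ?_⟩
        simpa using hvO
      · rintro ⟨g, hg⟩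
        exact ⟨u * g, by simp [C], hg⟩
    rw [this]
    exact (isOpen_iUnion fun g => hO.preimage (continuous_id.mul continuous_const)).measurableSet
  refine ⟨fun u => sel q (C u), sel_measurable q hq C hC hm, ?_, ?_⟩
  · intro u
    have h : u⁻¹ * sel q (C u) ∈ G := sel_mem q hq (C u) (hC u) (hcl u)
    have := G.inv_mem h
    simpa using this
  · intro u v huv
    have : C u = C v := by
      ext w
      show u⁻¹ * w ∈ G ↔ v⁻¹ * w ∈ G
      constructor
      · intro h
        have := G.mul_mem (G.inv_mem huv) h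
        simpa [mul_assoc] using this
      · intro h
        have := G.mul_mem huv h
        simpa [mul_assoc] using this
    simp only [this]

end Pool.Agent.V1170.UT
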