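import Mathlib
import Pool.Agent.V1170.UT.Sel

set_option autoImplicit false
set_option linter.all false

/-!
The action induced from a closed subgroup with a homomorphism onto another group.
-/

namespace Pool.Agent.V1170.UT

section ind

variable {U : Type} [TopologicalSpace U] [Group U] [IsTopologicalGroup U]
    [PolishSpace U] [MeasurableSpace U] [BorelSpace U]
    {H : Type} [TopologicalSpace H] [Group H] [IsTopologicalGroup H] [PolishSpace H]
    [MeasurableSpace H] [BorelSpace H]
    {X : Type} [MeasurableSpace X] [StandardBorelSpace X] [MulAction H X] [MeasurableSMul₂ H X]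

/-- data for the induced action -/
structure Dat (U H : Type) [TopologicalSpace U] [Group U] [MeasurableSpace U]
    [TopologicalSpace H] [Group H] where
  G : Subgroup U
  p : G →* H
  hp : Continuous p
  hs : Function.Surjective p
  σ : U → U
  hσ : Measurable σ
  mem : ∀ u, (σ u)⁻¹ * u ∈ G
  inv : ∀ u v, u⁻¹ * v ∈ G → σ u = σ v

/-- the induced space -/
def Sp (D : Dat U H) (X : Type) : Type := {t : U // D.σ t = t} × X

instance (D : Dat U H) : MeasurableSpace (Sp D X) :=
  inferInstanceAs (MeasurableSpace ({t : U // D.σ t = t} × X))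

theorem fix_measurable (D : Dat U H) : MeasurableSet {t : U | D.σ t = t} :=
  measurableSet_eq_fun D.hσ measurable_id

instance (D : Dat U H) : StandardBorelSpace (Sp D X) := by
  haveI : StandardBorelSpace {t : U // D.σ t = t} := (fix_measurable D).standardBorel
  exact inferInstanceAs (StandardBorelSpace ({t : U // D.σ t = t} × X))

theorem sig_idem (D : Dat U H) (u : U) : D.σ (D.σ u) = D.σ u :=
  D.inv _ _ (D.mem u)

instance act (D : Dat U H) : MulAction U (Sp D X) where
  smul u w := (⟨D.σ (u * w.1.1), sig_idem D _⟩, D.p ⟨_, D.mem (u * w.1.1)⟩ • w.2)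
  one_smul := by
    rintro ⟨⟨t, ht⟩, x⟩
    have e1 : D.σ (1 * t) = t := by rw [one_mul, ht]
    refine Prod.ext (Subtype.ext e1) ?_
    show D.p ⟨(D.σ (1 * t))⁻¹ * (1 * t), _⟩ • x = x
    have : (⟨(D.σ (1 * t))⁻¹ * (1 * t), D.mem (1 * t)⟩ : D.G) = 1 := by
      apply Subtype.ext
      show (D.σ (1 * t))⁻¹ * (1 * t) = 1
      rw [e1, one_mul, inv_mul_cancel]
    rw [this, map_one, one_smul]
  mul_smul := by
    rintro u v ⟨⟨t, ht⟩, x⟩
    have e1 : D.σ (u * v * t) = D.σ (u * D.σ (v * t)) := by
      apply D.inv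
      have h := D.G.inv_mem (D.mem (v * t))
      have e : (u * v * t)⁻¹ * (u * D.σ (v * t)) = ((D.σ (v * t))⁻¹ * (v * t))⁻¹ := by group
      rw [e]
      exact h
    refine Prod.ext (Subtype.ext e1) ?_
    show D.p ⟨(D.σ (u * v * t))⁻¹ * (u * v * t), _⟩ • x =
      D.p ⟨(D.σ (u * D.σ (v * t)))⁻¹ * (u * D.σ (v * t)), _⟩ • D.p ⟨(D.σ (v * t))⁻¹ * (v * t), _⟩ • x
    rw [smul_smul, ← map_mul]
    congr 2
    apply Subtype.ext
    show (D.σ (u * v * t))⁻¹ * (u * v * t) =
      (D.σ (u * D.σ (v * t)))⁻¹ * (u * D.σ (v * t)) * ((D.σ (v * t))⁻¹ * (v * t))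
    rw [e1]
    group

theorem act_fst (D : Dat U H) (u : U) (w : Sp D X) : (u • w).1.1 = D.σ (u * w.1.1) := rfl

theorem act_snd (D : Dat U H) (u : U) (w : Sp D X) :
    (u • w).2 = D.p ⟨_, D.mem (u * w.1.1)⟩ • w.2 := rfl

instance meas (D : Dat U H) : MeasurableSMul₂ U (Sp D X) where
  measurable_smul := by
    have h1 : Measurable (fun z : U × Sp D X => z.1 * z.2.1.1) :=
      measurable_fst.mul (measurable_subtype_coe.comp (measurable_fst.comp measurable_snd))
    have h2 : Measurable (fun z : U × Sp D X => D.σ (z.1 * z.2.1.1)) := D.hσ.comp h1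
    have h3 : Measurable (fun z : U × Sp D X => (D.σ (z.1 * z.2.1.1))⁻¹ * (z.1 * z.2.1.1)) :=
      h2.inv.mul h1
    have h4 : Measurable (fun z : U × Sp D X =>
        (⟨_, D.mem (z.1 * z.2.1.1)⟩ : D.G)) := h3.subtype_mk
    have h5 : Measurable (fun z : U × Sp D X => D.p ⟨_, D.mem (z.1 * z.2.1.1)⟩) :=
      D.hp.measurable.comp h4
    have h6 : Measurable (fun z : U × Sp D X => D.p ⟨_, D.mem (z.1 * z.2.1.1)⟩ • z.2.2) :=
      h5.smul (measurable_snd.comp measurable_snd)
    exact (h2.subtype_mk (h := fun z => sig_idem D _)).prodMk h6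

/-- the base coset -/
def inc (D : Dat U H) (x : X) : Sp D X := (⟨D.σ 1, sig_idem D 1⟩, x)

theorem inc_measurable (D : Dat U H) : Measurable (inc D : X → Sp D X) :=
  measurable_const.prodMk measurable_id

/-- projection -/
def prj (D : Dat U H) (w : Sp D X) : X := w.2

theorem prj_measurable (D : Dat U H) : Measurable (prj D : Sp D X → X) := measurable_snd

theorem orbit_iff (D : Dat U H) (w z : Sp D X) :
    (∃ u : U, u • w = z) ↔ ∃ h : H, h • prj D w = prj D z := by
  constructor
  · rintro ⟨u, rfl⟩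
    exact ⟨_, rfl⟩
  · rintro ⟨h, hh⟩
    obtain ⟨g, rfl⟩ := D.hs h
    obtain ⟨⟨t, ht⟩, x⟩ := w
    obtain ⟨⟨s, hs⟩, y⟩ := z
    have hh' : D.p g • x = y := hh
    have e1 : D.σ (s * g * t⁻¹ * t) = s := by
      have : D.σ s = D.σ (s * g * t⁻¹ * t) := by
        apply D.inv
        have e : s⁻¹ * (s * g * t⁻¹ * t) = g := by group
        rw [e]
        exact g.2
      rw [← this, hs]
    refine ⟨s * g * t⁻¹, Prod.ext (Subtype.ext e1) ?_⟩
    show D.p ⟨(D.σ (s * g * t⁻¹ * t))⁻¹ * (s * g * t⁻¹ * t), _⟩ • x = y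
    rw [← hh']
    congr 2
    apply Subtype.ext
    show (D.σ (s * g * t⁻¹ * t))⁻¹ * (s * g * t⁻¹ * t) = g
    rw [e1]
    group

end ind

/-- countably many or perfectly many orbits -/
def CP (G X : Type) [Group G] [MeasurableSpace X] [MulAction G X] : Prop :=
  Countable (Quotient (MulAction.orbitRel G X)) ∨
    ∃ f : (ℕ → Bool) → X, Measurable f ∧
      ∀ x y : ℕ → Bool, x ≠ y → ¬ ∃ g : G, g • f x = f y

theorem cp_transfer {U : Type} [TopologicalSpace U] [Group U] [IsTopologicalGroup U]
    [PolishSpace U] [MeasurableSpace U] [BorelSpace U]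
    {H : Type} [TopologicalSpace H] [Group H] [IsTopologicalGroup H] [PolishSpace H]
    [MeasurableSpace H] [BorelSpace H]
    {X : Type} [MeasurableSpace X] [StandardBorelSpace X] [MulAction H X] [MeasurableSMul₂ H X]
    (D : Dat U H) (h : CP U (Sp D X)) : CP H X := by
  rcases h with h | ⟨f, hf, hff⟩
  · left
    let F : Quotient (MulAction.orbitRel U (Sp D X)) → Quotient (MulAction.orbitRel H X) :=
      Quotient.map (prj D) (by
        intro w z hwz
        have h1 : ∃ u : U, u • z = w := hwz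
        have h2 := (orbit_iff D z w).1 h1
        exact h2)
    have hF : Function.Surjective F := by
      intro c
      induction c using Quotient.inductionOn with
      | h x => exact ⟨Quotient.mk _ (inc D x), rfl⟩
    exact hF.countable
  · right
    refine ⟨fun c => prj D (f c), (prj_measurable D).comp hf, ?_⟩
    intro x y hxy hg
    exact hff x y hxy ((orbit_iff D _ _).2 hg)

end Pool.Agent.V1170.UT
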