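import Mathlib
import Pool.Agent.Helper289.UO.Main
import Pool.Agent.V1170.UT.Ind
import Pool.Agent.V1170.UT.Cat

set_option autoImplicit false
set_option linter.all false

/-!
Embedding of Borel actions into a compact flow.
-/

namespace Pool.Agent.V1170.UT

open Metric Filter Topology Pool.Agent.Helper289.UO

section emb

variable {U : Type} [TopologicalSpace U] [Group U] [IsTopologicalGroup U]
    [PolishSpace U] [MeasurableSpace U] [BorelSpace U]
    {W : Type} [MeasurableSpace W] [StandardBorelSpace W] [MulAction U W] [MeasurableSMul₂ U W]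

/-- the translation flow -/
@[reducible] def flow (ν : U → ℝ) : MulAction U (ℕ → KK ν) where
  smul u x := fun n => tr ν u (x n)
  one_smul x := by
    funext n
    apply Subtype.ext
    funext h
    show (x n).1 ((1 : U)⁻¹ * h) = (x n).1 h
    rw [inv_one, one_mul]
  mul_smul u v x := by
    funext n
    apply Subtype.ext
    funext h
    show (x n).1 ((u * v)⁻¹ * h) = (x n).1 (v⁻¹ * (u⁻¹ * h))
    rw [mul_inv_rev, mul_assoc]

theorem op_tr (D : Set U) (u : U) : Op {x | u⁻¹ * x ∈ D} = {x | u⁻¹ * x ∈ Op D} := by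
  have key : ∀ (v : U) (E : Set U) (s : U), s ∈ Op E → v * s ∈ Op {x | v⁻¹ * x ∈ E} := by
    rintro v E s ⟨O, hO, hs, hm⟩
    refine ⟨(fun x => v⁻¹ * x) ⁻¹' O, hO.preimage (continuous_mul_left _), ?_, ?_⟩
    · show v⁻¹ * (v * s) ∈ O
      rw [inv_mul_cancel_left]
      exact hs
    · exact hm.preimage_of_isOpenMap (continuous_mul_left v⁻¹) (isOpenMap_mul_left v⁻¹)
  ext s
  constructor
  · intro h
    have h1 := key u⁻¹ _ s h
    have h2 : {x : U | (u⁻¹)⁻¹ * x ∈ {x | u⁻¹ * x ∈ D}} = D := by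
      ext x
      simp
    rw [h2] at h1
    exact h1
  · intro h
    have h1 := key u _ _ h
    rw [mul_inv_cancel_left] at h1
    exact h1

/-- the sets coding a point -/
def Dn (A : ℕ → Set W) (n : ℕ) (w : W) : Set U := {g | g⁻¹ • w ∈ A n}

theorem dn_measurable_prod (A : ℕ → Set W) (hA : ∀ n, MeasurableSet (A n)) (n : ℕ) :
    MeasurableSet {z : W × U | z.2⁻¹ • z.1 ∈ A n} := by
  have h : Measurable (fun z : W × U => z.2⁻¹ • z.1) := (measurable_snd.inv).smul measurable_fst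
  exact h (hA n)

theorem dn_measurable (A : ℕ → Set W) (hA : ∀ n, MeasurableSet (A n)) (n : ℕ) (w : W) :
    MeasurableSet (Dn (U := U) A n w) := by
  have h : Measurable (fun g : U => g⁻¹ • w) := measurable_inv.smul_const w
  exact h (hA n)

theorem dn_tr (A : ℕ → Set W) (n : ℕ) (w : W) (u : U) :
    Dn A n (u • w) = {x : U | u⁻¹ * x ∈ Dn A n w} := by
  ext g
  show g⁻¹ • u • w ∈ A n ↔ (u⁻¹ * g)⁻¹ • w ∈ A n
  rw [smul_smul, mul_inv_rev, inv_inv]

/-- the embedding -/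
noncomputable def emb (ν : U → ℝ) (hν : IsGNorm ν) (A : ℕ → Set W) (w : W) : ℕ → KK ν :=
  fun n => ⟨dd ν (Op (Dn (U := U) A n w)), dd_mem U ν hν _⟩

theorem emb_tr (ν : U → ℝ) (hν : IsGNorm ν) (A : ℕ → Set W) (w : W) (u : U) :
    (fun n => tr ν u (emb ν hν A w n)) = emb ν hν A (u • w) := by
  funext n
  apply Subtype.ext
  funext h
  show dd ν (Op (Dn (U := U) A n w)) (u⁻¹ * h) = dd ν (Op (Dn (U := U) A n (u • w))) h
  rw [dn_tr, op_tr, dd_translate]

theorem emb_inj (ν : U → ℝ) (hν : IsGNorm ν) (A : ℕ → Set W) (hA : ∀ n, MeasurableSet (A n))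
    (hsep : ∀ x y : W, (∀ n, x ∈ A n ↔ y ∈ A n) → x = y) :
    Function.Injective (emb ν hν A : W → ℕ → KK ν) := by
  intro w z hwz
  obtain ⟨V, hV, hVb⟩ := reduction_basis U
  have hcl : ∀ n, closure (Op (Dn (U := U) A n w)) = closure (Op (Dn (U := U) A n z)) := by
    intro n
    have h1 : dd ν (Op (Dn (U := U) A n w)) = dd ν (Op (Dn (U := U) A n z)) :=
      congrArg Subtype.val (congrFun hwz n)
    ext g
    rw [← dd_zero_iff U ν hν, ← dd_zero_iff U ν hν, h1]
  have h1 : ∀ n, IsMeagre (Dn (U := U) A n w \ Dn A n z) := fun n =>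
    meagre_diff_of_closure V hV (fun y W hW hy => hVb y W hW hy) _ _ (dn_measurable A hA n w) (hcl n)
  have h2 : ∀ n, IsMeagre (Dn (U := U) A n z \ Dn A n w) := fun n =>
    meagre_diff_of_closure V hV (fun y W hW hy => hVb y W hW hy) _ _ (dn_measurable A hA n z)
      (hcl n).symm
  have h3 : IsMeagre (⋃ n, ((Dn (U := U) A n w \ Dn A n z) ∪ (Dn (U := U) A n z \ Dn A n w))) :=
    isMeagre_iUnion fun n => (h1 n).union (h2 n)
  have h4 : Dense (⋃ n, ((Dn (U := U) A n w \ Dn A n z) ∪ (Dn (U := U) A n z \ Dn A n w)))ᶜ :=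
    dense_of_mem_residual h3
  haveI : Nonempty U := ⟨1⟩
  obtain ⟨g, hg⟩ := h4.nonempty
  have h5 : ∀ n, g⁻¹ • w ∈ A n ↔ g⁻¹ • z ∈ A n := by
    intro n
    have h6 : g ∉ ((Dn (U := U) A n w \ Dn A n z) ∪ (Dn (U := U) A n z \ Dn A n w)) := by
      intro h
      exact hg (Set.mem_iUnion.2 ⟨n, h⟩)
    constructor
    · intro h
      by_contra h'
      exact h6 (Or.inl ⟨h, h'⟩)
    · intro h
      by_contra h'
      exact h6 (Or.inr ⟨h, h'⟩)
  exact MulAction.injective g⁻¹ (hsep _ _ h5)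

theorem emb_measurable (ν : U → ℝ) (hν : IsGNorm ν) (A : ℕ → Set W)
    (hA : ∀ n, MeasurableSet (A n)) :
    @Measurable W (ℕ → KK ν) _ (borel (ℕ → KK ν)) (emb ν hν A) := by
  apply measurable_of_eval U ν hν W (emb ν hν A)
  intro n h
  obtain ⟨V, hV, hVb⟩ := reduction_basis U
  show Measurable (fun w => dd ν (Op (Dn (U := U) A n w)) h)
  refine measurable_of_Iio (fun r => ?_)
  by_cases hr : r ≤ 1
  · have h1 : (fun w => dd ν (Op (Dn (U := U) A n w)) h) ⁻¹' Set.Iio r =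
        ⋃ j : ℕ, {w | IsMeagre (V j ∩ {g | (w, g) ∈ {z : W × U | z.2⁻¹ • z.1 ∈ A n}ᶜ}) ∧
          ∃ s ∈ V j, ν (h⁻¹ * s) < r} := by
      ext w
      simp only [Set.mem_preimage, Set.mem_Iio, Set.mem_iUnion]
      rw [dd_lt_iff U ν hν _ h r hr]
      constructor
      · rintro ⟨s, hs, hs'⟩
        obtain ⟨j, hj1, hj2⟩ := (op_iff V hV (fun y W hW hy => hVb y W hW hy) _ s).1 hs
        exact ⟨j, hj2, s, hj1, hs'⟩
      · rintro ⟨j, hj, s, hs, hs'⟩
        exact ⟨s, (op_iff V hV (fun y W hW hy => hVb y W hW hy) _ s).2 ⟨j, hs, hj⟩, hs'⟩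
    rw [h1]
    refine MeasurableSet.iUnion fun j => ?_
    by_cases h2 : ∃ s ∈ V j, ν (h⁻¹ * s) < r
    · have : {w : W | IsMeagre (V j ∩ {g | (w, g) ∈ {z : W × U | z.2⁻¹ • z.1 ∈ A n}ᶜ}) ∧
          ∃ s ∈ V j, ν (h⁻¹ * s) < r} =
          {w : W | IsMeagre (V j ∩ {g | (w, g) ∈ {z : W × U | z.2⁻¹ • z.1 ∈ A n}ᶜ})} := by
        ext w
        constructor
        · rintro ⟨h3, _⟩; exact h3
        · intro h3; exact ⟨h3, h2⟩
      rw [this]
      exact meagre_measurable V hV (fun y W hW hy => hVb y W hW hy) _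
        (dn_measurable_prod A hA n).compl (V j) (hV j)
    · have : {w : W | IsMeagre (V j ∩ {g | (w, g) ∈ {z : W × U | z.2⁻¹ • z.1 ∈ A n}ᶜ}) ∧
          ∃ s ∈ V j, ν (h⁻¹ * s) < r} = ∅ := by
        ext w
        simp only [Set.mem_setOf_eq, Set.mem_empty_iff_false, iff_false]
        rintro ⟨_, h3⟩
        exact h2 h3
      rw [this]
      exact MeasurableSet.empty
  · have h1 : (fun w => dd ν (Op (Dn (U := U) A n w)) h) ⁻¹' Set.Iio r = Set.univ := by
      rw [Set.eq_univ_iff_forall]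
      intro y
      exact lt_of_le_of_lt (dd_mem_le1 U ν hν _ h) (not_le.mp hr)
    rw [h1]
    exact MeasurableSet.univ

end emb

/-- a Borel flow embeds, onto an invariant Borel set -/
theorem borel_embed (U : Type) [TopologicalSpace U] [Group U] [IsTopologicalGroup U]
    [PolishSpace U] [MeasurableSpace U] [BorelSpace U] (ν : U → ℝ) (hν : IsGNorm ν)
    (W : Type) [MeasurableSpace W] [StandardBorelSpace W] [MulAction U W] [MeasurableSMul₂ U W] :
    ∃ e : W → (ℕ → KK ν), @Measurable W (ℕ → KK ν) _ (borel (ℕ → KK ν)) e ∧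
      Function.Injective e ∧ ∀ (u : U) (w : W), (fun n => tr ν u (e w n)) = e (u • w) := by
  obtain ⟨A, hA, hs⟩ := exists_seq_separating W (p := MeasurableSet) MeasurableSet.empty Set.univ
  have hs' : ∀ x y : W, (∀ n, x ∈ A n ↔ y ∈ A n) → x = y := fun x y h =>
    hs x (Set.mem_univ _) y (Set.mem_univ _) h
  exact ⟨emb ν hν A, emb_measurable ν hν A hA, emb_inj ν hν A hA hs',
    fun u w => emb_tr ν hν A w u⟩

end Pool.Agent.V1170.UT
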